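import Pool.Agent.H466.HP.Stm3
import Pool.Agent.H466.HP.Asm

/-!
HP-REGX (for helper466): the regular points, with exponentially small exceptional sets.
-/

set_option autoImplicit false

namespace Pool.Agent.H996.HP

open Complex MeasureTheory Set Filter Topology
open Pool.Agent.H862.VK (Yz)
open Pool.Agent.H466.HP
open Pool.Agent.H332.HP (qt qt_nonneg Q_eq Q_nonneg SU_diff)

/-! ### the sums -/

/-- the terms of `QF` -/
noncomputable def qf (U X x t : ℝ) (b : Zr) : ℝ :=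
  if X / 4 < |(b : ℂ).re| then qt U x t b else 0

theorem QF_eq (U X x t : ℝ) : QF U X x t = ∑' b : Zr, qf U X x t b := rfl

theorem qf_nonneg (U X x t : ℝ) (b : Zr) : 0 ≤ qf U X x t b := by
  unfold qf
  split_ifs
  · exact qt_nonneg U x t b
  · exact le_rfl

theorem QF_nonneg (U X x t : ℝ) : 0 ≤ QF U X x t := tsum_nonneg (qf_nonneg U X x t)

theorem qt_mono {U x y t : ℝ} (hy : 0 < y) (hyx : y ≤ x) (b : Zr) :
    qt U x t b ≤ qt U y t b := by
  have hx : 0 < x := lt_of_lt_of_le hy hyx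
  unfold qt mu
  have ha : 0 ≤ |(b : ℂ).im - t| := abs_nonneg _
  gcongr

theorem qt_le {U x y t : ℝ} (hy : 0 < y) (hyx : y ≤ x) (b : Zr) :
    qt U y t b ≤ (x / y) ^ 2 * qt U x t b := by
  have hx : 0 < x := lt_of_lt_of_le hy hyx
  unfold qt
  have hn : 0 ≤ mu b * Real.exp (U * |(b : ℂ).re|) * Real.exp (-((b : ℂ).im - t) ^ 2 / 2) := by
    unfold mu; positivity
  have ha : 0 ≤ |(b : ℂ).im - t| := abs_nonneg _
  obtain ⟨a, hadef⟩ : ∃ a, a = |(b : ℂ).im - t| := ⟨_, rfl⟩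
  obtain ⟨N, hN⟩ : ∃ N, N = mu b * Real.exp (U * |(b : ℂ).re|) *
    Real.exp (-((b : ℂ).im - t) ^ 2 / 2) := ⟨_, rfl⟩
  rw [← hN] at hn ⊢
  rw [← hadef] at ha ⊢
  have h3 : x + a ≤ x / y * (y + a) := by
    rw [div_mul_eq_mul_div, le_div_iff₀ hy]
    nlinarith
  have h4 : (x + a) ^ 2 ≤ (x / y * (y + a)) ^ 2 := pow_le_pow_left₀ (by positivity) h3 2
  have h5 : 0 < (x + a) ^ 2 := by positivity
  have h6 : 0 < (y + a) ^ 2 := by positivity
  rw [mul_div_assoc', div_le_div_iff₀ h6 h5]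
  calc N * (x + a) ^ 2 ≤ N * (x / y * (y + a)) ^ 2 := mul_le_mul_of_nonneg_left h4 hn
    _ = _ := by ring

theorem QF_mono {U X x y t : ℝ} (hy : 0 < y) (hyx : y ≤ x) : QF U X x t ≤ QF U X y t := by
  have h1 : ∀ b, qf U X x t b ≤ qf U X y t b := by
    intro b
    unfold qf
    split_ifs
    · exact qt_mono hy hyx b
    · exact le_rfl
  have h2 : ∀ b, qf U X y t b ≤ (x / y) ^ 2 * qf U X x t b := by
    intro b
    unfold qf
    split_ifs
    · exact qt_le hy hyx b
    · rw [mul_zero]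
  rw [QF_eq, QF_eq]
  by_cases hs : Summable (qf U X x t)
  · have hs' : Summable (qf U X y t) :=
      Summable.of_nonneg_of_le (qf_nonneg U X y t) h2 (hs.mul_left _)
    exact hs.tsum_le_tsum h1 hs'
  · have hs' : ¬ Summable (qf U X y t) := fun h =>
      hs (Summable.of_nonneg_of_le (qf_nonneg U X x t) h1 h)
    rw [tsum_eq_zero_of_not_summable hs, tsum_eq_zero_of_not_summable hs']

theorem Q_split {U X x t : ℝ} (hU : 0 ≤ U) (hx : 0 < x)
    (hs : Summable (fun b : Zr => mu b / (x + |(b : ℂ).im - t|) ^ 2)) :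
    Q U x t ≤ Real.exp (U * (X / 4)) * ∑' b : Zr, mu b / (x + |(b : ℂ).im - t|) ^ 2 +
      QF U X x t := by
  have hm : ∀ b : Zr, 0 ≤ mu b / (x + |(b : ℂ).im - t|) ^ 2 := fun b => by
    unfold mu
    positivity
  have hle : ∀ b : Zr, qt U x t b ≤
      Real.exp (U * (X / 4)) * (mu b / (x + |(b : ℂ).im - t|) ^ 2) + qf U X x t b := by
    intro b
    unfold qf
    split_ifs with h
    · have := mul_nonneg (Real.exp_pos (U * (X / 4))).le (hm b)
      linarith
    · rw [add_zero]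
      push Not at h
      unfold qt
      have e1 : Real.exp (U * |(b : ℂ).re|) ≤ Real.exp (U * (X / 4)) := by
        apply Real.exp_le_exp.2
        exact mul_le_mul_of_nonneg_left h hU
      have e2 : Real.exp (-((b : ℂ).im - t) ^ 2 / 2) ≤ 1 := by
        apply Real.exp_le_one_iff.2
        have := sq_nonneg ((b : ℂ).im - t)
        linarith
      have hmu : 0 ≤ mu b := by unfold mu; positivity
      have e3 : mu b * Real.exp (U * |(b : ℂ).re|) * Real.exp (-((b : ℂ).im - t) ^ 2 / 2) ≤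
          mu b * Real.exp (U * (X / 4)) * 1 := by
        have := Real.exp_pos (U * |(b : ℂ).re|)
        have := Real.exp_pos (-((b : ℂ).im - t) ^ 2 / 2)
        gcongr
      calc _ ≤ mu b * Real.exp (U * (X / 4)) * 1 / (x + |(b : ℂ).im - t|) ^ 2 := by
            have : 0 < (x + |(b : ℂ).im - t|) ^ 2 := by positivity
            gcongr
        _ = _ := by ring
  rw [Q_eq, QF_eq]
  by_cases hq : Summable (qt U x t)
  · have hf : Summable (qf U X x t) := Summable.of_nonneg_of_le (qf_nonneg U X x t) (fun b => by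
      unfold qf
      split_ifs
      · exact le_rfl
      · exact qt_nonneg U x t b) hq
    rw [← tsum_mul_left, ← (hs.mul_left _).tsum_add hf]
    exact hq.tsum_le_tsum hle ((hs.mul_left _).add hf)
  · rw [tsum_eq_zero_of_not_summable hq]
    have h1 : 0 ≤ ∑' b : Zr, mu b / (x + |(b : ℂ).im - t|) ^ 2 := tsum_nonneg hm
    have h2 : 0 ≤ ∑' b : Zr, qf U X x t b := tsum_nonneg (qf_nonneg U X x t)
    have h3 := Real.exp_pos (U * (X / 4))
    positivity

/-! ### the deterministic part -/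

/-- the bound at a good point -/
theorem det {M κ C1 C2 C3 C5 x1 B L t y0 : ℝ} (hM : 1 ≤ M) (hκ : 0 < κ) (hκ1 : κ ≤ 1)
    (hC1 : 0 < C1) (hC2 : 0 < C2) (hC3 : 0 < C3) (hC5 : 0 < C5) (hx0 : 0 < x1) (hx1 : x1 ≤ 1)
    (hxa : x1 ≤ κ / (64 * C1)) (hxb : x1 ≤ κ / (32 * (1 + 2 * M))) (hB : 1 ≤ B)
    (hB2 : C2 * C5 * M ^ 2 * Real.exp (-(B / 4)) ≤ κ / 32) (hL : 1 ≤ L)
    (hlog : Real.log (2 + t) ≤ 2 * L) (hy : 0 < y0)
    (hyx : y0 ≤ x1) (hyL : 16 * B ≤ y0 * L) (hyC : 128 * C3 / κ ≤ y0 * L)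
    (hE1 : ∀ z ∈ Kt t y0 x1 M, ∀ z' ∈ Kt t y0 x1 M,
      ‖(P z - P z') - (S z t - S z' t)‖ ≤ C1 * x1 * Real.log (2 + t))
    (hE2 : ∀ z ∈ Kt t y0 1 M, ‖S z t - SU (B / y0) z t‖ ≤
      C2 * M ^ 2 / (B / y0) * Real.exp (-(z.re * (B / y0) / 2)) * Q (B / y0) z.re t)
    (hEF : ∀ u : ℝ, 0 ≤ u → u ≤ L / 2 →
      ‖G u t - (1 / Real.sqrt (2 * Real.pi) : ℝ) * (L * cexp (I * u * t) *
        Real.exp (-u ^ 2 / 2) - H370.PP H370.A2.lamC u t)‖ ≤ C3)
    (hREP : ∀ x : ℝ, y0 ≤ x → x ≤ 1 →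
      Summable (fun b : Zr => mu b / (x + |(b : ℂ).im - t|) ^ 2) ∧
      ∑' b : Zr, mu b / (x + |(b : ℂ).im - t|) ^ 2 ≤ C5 / x * (P (x + I * t)).re)
    (hQF : QF (B / y0) y0 y0 t ≤ κ / 64 * L * (B / y0) / (C2 * M ^ 2))
    (hD : ∀ z ∈ Kt t y0 1 M, ‖Dp (B / y0) z t‖ ≤ κ / 64 * L)
    (hA : ‖P (x1 + I * t) - (L / 2 : ℝ)‖ ≤ κ / 4 * L)
    {z : ℂ} (hz : z ∈ Kt t y0 x1 M) : ‖P z - (L / 2 : ℝ)‖ ≤ κ * L := by
  have hL0 : 0 < L := by linarith
  have hM0 : 0 < M := by linarith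
  obtain ⟨U, hU⟩ : ∃ U, U = B / y0 := ⟨_, rfl⟩
  rw [← hU] at hE2 hQF hD
  have hy1 : y0 ≤ 1 := hyx.trans hx1
  have hU0 : 0 < U := by rw [hU]; positivity
  have hUy : U * y0 = B := by rw [hU]; field_simp
  have hUL : U ≤ L / 16 := by
    rw [hU, div_le_iff₀ hy]
    nlinarith
  have hκL : 0 < κ * L := by positivity
  have hsub : ∀ w, w ∈ Kt t y0 x1 M → w ∈ Kt t y0 1 M := fun w hw =>
    ⟨hw.1, hw.2.1.trans hx1, hw.2.2⟩
  -- truncation
  have p2 : ∀ w ∈ Kt t y0 x1 M,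
      ‖S w t - SU U w t‖ ≤ κ / 32 * ‖P (w.re + I * t)‖ + κ / 64 * L := by
    intro w hw
    refine (hE2 w (hsub w hw)).trans ?_
    obtain ⟨x, hx⟩ : ∃ x, x = w.re := ⟨_, rfl⟩
    have hx2 : y0 ≤ x := by rw [hx]; exact hw.1
    have hx3 : x ≤ 1 := by rw [hx]; exact hw.2.1.trans hx1
    have hxx : 0 < x := lt_of_lt_of_le hy hx2
    rw [← hx]
    obtain ⟨hs, hle⟩ := hREP x hx2 hx3
    have h1 := Q_split (X := y0) hU0.le hxx hs
    have h2 : QF U y0 x t ≤ κ / 64 * L * U / (C2 * M ^ 2) := (QF_mono hy hx2).trans hQF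
    have h3 : ∑' b : Zr, mu b / (x + |(b : ℂ).im - t|) ^ 2 ≤ C5 / x * ‖P (x + I * t)‖ := by
      refine hle.trans ?_
      have h4 : (P (x + I * t)).re ≤ ‖P (x + I * t)‖ := Complex.re_le_norm _
      gcongr
    have hUx : B ≤ U * x := by
      rw [← hUy]
      gcongr
    have h4 : Real.exp (-(x * U / 2)) ≤ Real.exp (-(B / 2)) := by
      apply Real.exp_le_exp.2
      nlinarith
    have h5 : U * (y0 / 4) = B / 4 := by rw [← hUy]; ring
    rw [h5] at h1
    have h6 : Real.exp (-(B / 2)) * Real.exp (B / 4) = Real.exp (-(B / 4)) := by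
      rw [← Real.exp_add]
      congr 1
      ring
    have h7 : Real.exp (-(B / 2)) ≤ 1 := by
      apply Real.exp_le_one_iff.2
      linarith
    have hQ0 := Q_nonneg U x t
    have hP0 := norm_nonneg (P (x + I * t))
    have hc0 : 0 ≤ C2 * M ^ 2 / U := by positivity
    have hE0 := Real.exp_pos (B / 4)
    calc C2 * M ^ 2 / U * Real.exp (-(x * U / 2)) * Q U x t
        ≤ C2 * M ^ 2 / U * Real.exp (-(B / 2)) * (Real.exp (B / 4) *
          (C5 / x * ‖P (x + I * t)‖) + κ / 64 * L * U / (C2 * M ^ 2)) := by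
          have h8 : Q U x t ≤ Real.exp (B / 4) * (C5 / x * ‖P (x + I * t)‖) +
              κ / 64 * L * U / (C2 * M ^ 2) := by
            refine h1.trans (add_le_add ?_ h2)
            exact mul_le_mul_of_nonneg_left h3 hE0.le
          have h9 := Real.exp_pos (-(B / 2))
          gcongr
      _ = (C2 * C5 * M ^ 2 * (Real.exp (-(B / 2)) * Real.exp (B / 4))) / (U * x) *
          ‖P (x + I * t)‖ + Real.exp (-(B / 2)) * (κ / 64 * L) := by
          field_simp
      _ ≤ κ / 32 * ‖P (x + I * t)‖ + 1 * (κ / 64 * L) := by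
          rw [h6]
          have h9 : (C2 * C5 * M ^ 2 * Real.exp (-(B / 4))) / (U * x) ≤ κ / 32 := by
            rw [div_le_iff₀ (by positivity)]
            have h10 : 1 ≤ U * x := hB.trans hUx
            have h11 : κ / 32 * 1 ≤ κ / 32 * (U * x) := by gcongr
            linarith
          have h12 : 0 ≤ κ / 64 * L := by positivity
          exact add_le_add (mul_le_mul_of_nonneg_right h9 hP0) (mul_le_mul_of_nonneg_right h7 h12)
      _ = _ := by ring
  have hcc : 1 / Real.sqrt (2 * Real.pi) ≤ 1 / 2 := by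
    apply one_div_le_one_div_of_le (by norm_num)
    apply Real.le_sqrt_of_sq_le
    have := Real.pi_gt_three
    linarith
  have hcc0 : 0 ≤ 1 / Real.sqrt (2 * Real.pi) := by positivity
  -- the transform
  have p3 : ∀ w ∈ Kt t y0 x1 M, ∀ w' ∈ Kt t y0 x1 M,
      ‖SU U w t - SU U w' t‖ ≤ κ / 64 * L + κ / 64 * L + κ / 64 * L := by
    intro w hw w' hw'
    refine (SU_diff (U := U) (L := L) (C := C3) (y := y0) hU0 hL0.le hy
      hw.1 hw'.1 hC3.le (fun u h0 h1 => hEF u h0 (by linarith))).trans ?_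
    have q1 : ‖w - w'‖ ≤ κ / 32 := by
      have h1 : |w.re - w'.re| ≤ x1 := by
        rw [abs_le]
        have a1 := hw.1
        have a2 := hw.2.1
        have a3 := hw'.1
        have a4 := hw'.2.1
        constructor <;> linarith
      have h2 : |w.im - w'.im| ≤ 2 * M * x1 := by
        have a1 := hw.2.2
        have a2 := hw'.2.2
        have a3 := hw.2.1
        have a4 := hw'.2.1
        have a5 : M * w.re ≤ M * x1 := by gcongr
        have a6 : M * w'.re ≤ M * x1 := by gcongr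
        rw [abs_le] at a1 a2 ⊢
        constructor <;> linarith [a1.1, a1.2, a2.1, a2.2]
      have h3 : ‖w - w'‖ ≤ |(w - w').re| + |(w - w').im| := Complex.norm_le_abs_re_add_abs_im _
      rw [Complex.sub_re, Complex.sub_im] at h3
      have h4 : (1 + 2 * M) * x1 ≤ κ / 32 := by
        calc (1 + 2 * M) * x1 ≤ (1 + 2 * M) * (κ / (32 * (1 + 2 * M))) := by gcongr
          _ = κ / 32 := by
            have : (1 + 2 * M) ≠ 0 := by positivity
            field_simp
      linarith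
    have q2 : ‖Dp U w t - Dp U w' t‖ ≤ κ / 32 * L := by
      have h1 := norm_sub_le (Dp U w t) (Dp U w' t)
      have h2 := hD w (hsub w hw)
      have h3 := hD w' (hsub w' hw')
      linarith
    have q3 : 2 * C3 / y0 ≤ κ / 64 * L := by
      have h1 : 128 * C3 ≤ y0 * L * κ := by rwa [div_le_iff₀ hκ] at hyC
      rw [div_le_iff₀ hy]
      nlinarith
    have r1 : 1 / Real.sqrt (2 * Real.pi) * (L * ‖w - w'‖) ≤ 1 / 2 * (L * (κ / 32)) := by
      gcongr
    have r2 : 1 / Real.sqrt (2 * Real.pi) * ‖Dp U w t - Dp U w' t‖ ≤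
        1 / 2 * (κ / 32 * L) := by gcongr
    linarith
  -- the variation
  have p4 : ∀ w ∈ Kt t y0 x1 M, ∀ w' ∈ Kt t y0 x1 M, ‖P w - P w'‖ ≤
      κ / 32 * (‖P (w.re + I * t)‖ + ‖P (w'.re + I * t)‖) + 7 * κ / 64 * L := by
    intro w hw w' hw'
    have p1 : ‖(P w - P w') - (S w t - S w' t)‖ ≤ κ / 32 * L := by
      refine (hE1 w hw w' hw').trans ?_
      have h3 : C1 * x1 ≤ κ / 64 := by
        calc C1 * x1 ≤ C1 * (κ / (64 * C1)) := by gcongr
          _ = κ / 64 := by field_simp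
      calc C1 * x1 * Real.log (2 + t) ≤ C1 * x1 * (2 * L) := by gcongr
        _ ≤ κ / 64 * (2 * L) := by gcongr
        _ = κ / 32 * L := by ring
    have t1 : P w - P w' = ((P w - P w') - (S w t - S w' t)) + (S w t - SU U w t) -
        (S w' t - SU U w' t) + (SU U w t - SU U w' t) := by ring
    rw [t1]
    have n1 := norm_add_le (((P w - P w') - (S w t - S w' t)) + (S w t - SU U w t) -
        (S w' t - SU U w' t)) (SU U w t - SU U w' t)
    have n2 := norm_sub_le (((P w - P w') - (S w t - S w' t)) + (S w t - SU U w t))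
        (S w' t - SU U w' t)
    have n3 := norm_add_le ((P w - P w') - (S w t - S w' t)) (S w t - SU U w t)
    have n4 := p2 w hw
    have n5 := p2 w' hw'
    have n6 := p3 w hw w' hw'
    linarith
  -- the anchor
  have ha : (x1 + I * t : ℂ) ∈ Kt t y0 x1 M := by
    refine ⟨?_, ?_, ?_⟩
    · simpa using hyx
    · simp
    · simp only [add_im, ofReal_im, mul_im, I_re, I_im, ofReal_re, zero_mul, one_mul, zero_add,
        sub_self, abs_zero, add_re, mul_re, add_zero, mul_zero]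
      positivity
  have har : ((x1 + I * t : ℂ)).re = x1 := by simp
  have hPa : ‖P (x1 + I * t)‖ ≤ 3 / 4 * L := by
    have h1 : P (x1 + I * t) = (P (x1 + I * t) - (L / 2 : ℝ)) + (L / 2 : ℝ) := by ring
    rw [h1]
    refine (norm_add_le _ _).trans ?_
    rw [Complex.norm_real, Real.norm_of_nonneg (by positivity : (0 : ℝ) ≤ L / 2)]
    have h2 : κ / 4 * L ≤ 1 / 4 * L := by gcongr
    linarith
  -- the point with the same real part
  have hzr : ((z.re : ℂ) + I * t) ∈ Kt t y0 x1 M := by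
    refine ⟨?_, ?_, ?_⟩
    · simpa using hz.1
    · simpa using hz.2.1
    · simp only [add_im, ofReal_im, mul_im, I_re, I_im, ofReal_re, zero_mul, one_mul, zero_add,
        sub_self, abs_zero, add_re, mul_re, add_zero, mul_zero]
      have : 0 < z.re := lt_of_lt_of_le hy hz.1
      positivity
  have hzrr : ((z.re : ℂ) + I * t).re = z.re := by simp
  have hPz : ‖P (z.re + I * t)‖ ≤ L := by
    have h1 := p4 _ hzr _ ha
    rw [hzrr, har] at h1
    have h2 : ‖P (z.re + I * t)‖ ≤ ‖P (z.re + I * t) - P (x1 + I * t)‖ + ‖P (x1 + I * t)‖ := by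
      have h3 : P (z.re + I * t) = (P (z.re + I * t) - P (x1 + I * t)) + P (x1 + I * t) := by
        ring
      calc ‖P (z.re + I * t)‖ = ‖(P (z.re + I * t) - P (x1 + I * t)) + P (x1 + I * t)‖ := by
            rw [← h3]
        _ ≤ _ := norm_add_le _ _
    have h4 := norm_nonneg (P (z.re + I * t))
    have h5 := norm_nonneg (P (x1 + I * t))
    have h6 : κ / 32 * (‖P (z.re + I * t)‖ + ‖P (x1 + I * t)‖) ≤
        1 / 32 * (‖P (z.re + I * t)‖ + ‖P (x1 + I * t)‖) := by gcongr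
    have h7 : 7 * κ / 64 * L ≤ 7 * 1 / 64 * L := by gcongr
    linarith
  have h1 := p4 _ hz _ ha
  rw [har] at h1
  have h2 : P z - (L / 2 : ℝ) = (P z - P (x1 + I * t)) + (P (x1 + I * t) - (L / 2 : ℝ)) := by
    ring
  rw [h2]
  refine (norm_add_le _ _).trans ?_
  have h3 : κ / 32 * (‖P (z.re + I * t)‖ + ‖P (x1 + I * t)‖) ≤ κ / 32 * (L + 3 / 4 * L) := by
    gcongr
  have h4 : κ / 32 * (L + 3 / 4 * L) = 7 / 128 * (κ * L) := by ring
  have h5 : 7 * κ / 64 * L = 7 / 64 * (κ * L) := by ring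
  have h6 : κ / 4 * L = 1 / 4 * (κ * L) := by ring
  rw [h4] at h3
  rw [h5] at h1
  rw [h6] at hA
  linarith

/-! ### the measure of the bad points, one dyadic interval -/

theorem core (h1 : S_DEXP) (h2 : S_QF) (h3 : S_REP) (h4 : S_ANCP) (M κ : ℝ) (hM : 1 ≤ M)
    (hκ : 0 < κ) (hκ1 : κ ≤ 1) : ∃ C c T0 : ℝ, 0 < C ∧ 0 < c ∧ 10 ≤ T0 ∧ ∀ T : ℝ, T0 ≤ T →
    ∀ y0 : ℝ, 0 < y0 → y0 ≤ 2 → volume {t : ℝ | t ∈ Icc T (2 * T) ∧
        ¬ Reg1 t y0 M κ (Real.log T)} ≤
      ENNReal.ofReal (C * T * Real.exp (-(c * y0 * Real.log T))) := by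
  obtain ⟨C1, hC1, H1⟩ := e1 M hM
  obtain ⟨C2, hC2, H2⟩ := e2
  obtain ⟨C3, T3, hC3, hT3, H3⟩ := ef
  obtain ⟨C4, T4, hC4, hT4, H4⟩ := cone M hM
  obtain ⟨C5, hC5, H5⟩ := h3
  obtain ⟨C6, T6, hC6, hT6, H6⟩ := h2
  have hM0 : 0 < M := by linarith
  obtain ⟨x1, hx1d⟩ : ∃ x1, x1 = min 1 (min (κ / (64 * C1)) (κ / (32 * (1 + 2 * M)))) := ⟨_, rfl⟩
  have hx0 : 0 < x1 := by
    rw [hx1d]
    exact lt_min one_pos (lt_min (by positivity) (by positivity))
  have hx1 : x1 ≤ 1 := by rw [hx1d]; exact min_le_left _ _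
  have hxa : x1 ≤ κ / (64 * C1) := by
    rw [hx1d]; exact (min_le_right _ _).trans (min_le_left _ _)
  have hxb : x1 ≤ κ / (32 * (1 + 2 * M)) := by
    rw [hx1d]; exact (min_le_right _ _).trans (min_le_right _ _)
  clear hx1d
  obtain ⟨B, hBd⟩ : ∃ B, B = 1 + 128 * (C2 * C5 * M ^ 2) / κ := ⟨_, rfl⟩
  have hB : 1 ≤ B := by
    have : 0 < 128 * (C2 * C5 * M ^ 2) / κ := by positivity
    linarith
  have hB0 : 0 < B := by linarith
  have hB2 : C2 * C5 * M ^ 2 * Real.exp (-(B / 4)) ≤ κ / 32 := by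
    have h5 : Real.exp (-(B / 4)) ≤ 4 / B := by
      rw [Real.exp_neg, ← one_div, div_le_div_iff₀ (Real.exp_pos _) hB0]
      have := Real.add_one_le_exp (B / 4)
      linarith
    have h6 : 128 * (C2 * C5 * M ^ 2) ≤ B * κ := by
      rw [hBd, add_mul, div_mul_cancel₀ _ hκ.ne']
      linarith
    calc C2 * C5 * M ^ 2 * Real.exp (-(B / 4)) ≤ C2 * C5 * M ^ 2 * (4 / B) := by gcongr
      _ = (128 * (C2 * C5 * M ^ 2)) / (32 * B) := by
          field_simp
          norm_num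
      _ ≤ (B * κ) / (32 * B) := by gcongr
      _ = κ / 32 := by field_simp
  clear hBd
  obtain ⟨C7, c7, T7, hC7, hc7, hT7, H7⟩ := h1 M (κ / 64) B hM (by positivity) hB
  obtain ⟨c8, T8, hc8, hT8, H8⟩ := h4 x1 (κ / 4) (4 * M) hx0 (by positivity) (by positivity)
  obtain ⟨c, hcd⟩ : ∃ c, c = min (1 / 128) (min c7 (c8 / 2)) := ⟨_, rfl⟩
  have hc0 : 0 < c := by
    rw [hcd]
    exact lt_min (by norm_num) (lt_min hc7 (by positivity))
  have hca : c ≤ 1 / 128 := by rw [hcd]; exact min_le_left _ _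
  have hcb : c ≤ c7 := by rw [hcd]; exact (min_le_right _ _).trans (min_le_left _ _)
  have hcc : c ≤ c8 / 2 := by rw [hcd]; exact (min_le_right _ _).trans (min_le_right _ _)
  clear hcd
  obtain ⟨E, hE⟩ : ∃ E, E = 16 * B + 128 * C3 / κ := ⟨_, rfl⟩
  have hE0 : 0 < 128 * C3 / κ := by positivity
  obtain ⟨K, hK⟩ : ∃ K, K = 64 * C6 * C2 * M ^ 2 / (κ * B) := ⟨_, rfl⟩
  have hK0 : 0 < K := by rw [hK]; positivity
  have hexpE := Real.exp_pos (c * E)
  refine ⟨C4 + 1 + C7 + K + Real.exp (c * E), c, T3 + T4 + T6 + T7 + T8, by positivity, hc0,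
    by linarith, fun T hT y0 hy hy2 => ?_⟩
  have hT3' : T3 ≤ T := by linarith
  have hT4' : T4 ≤ T := by linarith
  have hT6' : T6 ≤ T := by linarith
  have hT7' : T7 ≤ T := by linarith
  have hT8' : T8 ≤ T := by linarith
  have hT10 : 10 ≤ T := by linarith
  have hT0 : 0 < T := by linarith
  obtain ⟨L, hLd⟩ : ∃ L, L = Real.log T := ⟨_, rfl⟩
  have hL1 : 1 ≤ L := by
    rw [hLd, Real.le_log_iff_exp_le hT0]
    have := Real.exp_one_lt_d9
    linarith
  have hL0 : 0 < L := by linarith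
  rw [← hLd]
  have hX := Real.exp_pos (-(c * y0 * L))
  by_cases hyE : y0 * L < E
  · refine (measure_mono (t := Icc T (2 * T)) fun t ht => ht.1).trans ?_
    rw [Real.volume_Icc]
    apply ENNReal.ofReal_le_ofReal
    have h5 : 1 ≤ Real.exp (c * E) * Real.exp (-(c * y0 * L)) := by
      rw [← Real.exp_add]
      apply Real.one_le_exp
      have : c * (y0 * L) ≤ c * E := by gcongr
      linarith
    have h6 : T * 1 ≤ T * (Real.exp (c * E) * Real.exp (-(c * y0 * L))) := by gcongr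
    have h7 : 0 ≤ (C4 + 1 + C7 + K) * T * Real.exp (-(c * y0 * L)) := by positivity
    have h8 : (C4 + 1 + C7 + K + Real.exp (c * E)) * T * Real.exp (-(c * y0 * L)) =
        (C4 + 1 + C7 + K) * T * Real.exp (-(c * y0 * L)) +
          T * (Real.exp (c * E) * Real.exp (-(c * y0 * L))) := by ring
    rw [h8]
    linarith
  push Not at hyE
  -- the measures
  have m1 : volume {t : ℝ | t ∈ Icc T (2 * T) ∧ ¬ CF t y0 M} ≤
      ENNReal.ofReal (C4 * T * Real.exp (-(c * y0 * L))) := by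
    refine (H4 T hT4' y0 hy).trans (ENNReal.ofReal_le_ofReal ?_)
    rw [← hLd]
    have h5 : Real.exp (-(y0 * L / 128)) ≤ Real.exp (-(c * y0 * L)) := by
      apply Real.exp_le_exp.2
      have : c * (y0 * L) ≤ 1 / 128 * (y0 * L) := by gcongr
      linarith
    gcongr
  have m2 : volume {t : ℝ | t ∈ Icc T (2 * T) ∧ ∃ z : ℂ, x1 ≤ z.re ∧ z.re ≤ 4 ∧
      |z.im - t| ≤ 4 * M ∧ κ / 4 * L < ‖P z - (L / 2 : ℝ)‖} ≤
      ENNReal.ofReal (1 * T * Real.exp (-(c * y0 * L))) := by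
    rw [hLd]
    refine (H8 T hT8').trans (ENNReal.ofReal_le_ofReal ?_)
    rw [← hLd, Real.rpow_def_of_pos hT0, ← hLd]
    have h5 : L * (1 - c8) = L + -(c8 * L) := by ring
    have h6 : Real.exp L = T := by rw [hLd, Real.exp_log hT0]
    rw [h5, Real.exp_add, h6, one_mul]
    have h7 : Real.exp (-(c8 * L)) ≤ Real.exp (-(c * y0 * L)) := by
      apply Real.exp_le_exp.2
      have h8 : c * y0 ≤ c8 / 2 * 2 := by gcongr
      have h9 : c * y0 * L ≤ c8 / 2 * 2 * L := by gcongr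
      linarith
    gcongr
  have hfin : ∀ a b : ℝ, 0 ≤ a → 0 ≤ b → ENNReal.ofReal (a * T * Real.exp (-(c * y0 * L))) +
      ENNReal.ofReal (b * T * Real.exp (-(c * y0 * L))) =
      ENNReal.ofReal ((a + b) * T * Real.exp (-(c * y0 * L))) := by
    intro a b ha hb
    rw [← ENNReal.ofReal_add (by positivity) (by positivity)]
    congr 1
    ring
  -- far from the line
  have hfar : ∀ t : ℝ, (¬ ∃ z : ℂ, x1 ≤ z.re ∧ z.re ≤ 4 ∧
      |z.im - t| ≤ 4 * M ∧ κ / 4 * L < ‖P z - (L / 2 : ℝ)‖) →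
      ∀ z ∈ Kt t y0 4 M, x1 ≤ z.re → ‖P z - (L / 2 : ℝ)‖ ≤ κ * L := by
    intro t ht z hz hx
    by_contra hlt
    push Not at hlt
    refine ht ⟨z, hx, hz.2.1, ?_, ?_⟩
    · have h5 := hz.2.2
      have h6 : M * z.re ≤ M * 4 := by
        have := hz.2.1
        gcongr
      linarith
    · have h5 : κ / 4 * L ≤ κ * L := by
        have : 0 < κ * L := by positivity
        linarith
      linarith
  by_cases hyx : y0 ≤ x1
  swap
  · push Not at hyx
    have hsub : {t : ℝ | t ∈ Icc T (2 * T) ∧ ¬ Reg1 t y0 M κ L} ⊆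
        {t : ℝ | t ∈ Icc T (2 * T) ∧ ¬ CF t y0 M} ∪
        {t : ℝ | t ∈ Icc T (2 * T) ∧ ∃ z : ℂ, x1 ≤ z.re ∧ z.re ≤ 4 ∧
          |z.im - t| ≤ 4 * M ∧ κ / 4 * L < ‖P z - (L / 2 : ℝ)‖} := by
      intro t ht
      obtain ⟨htT, hbad⟩ := ht
      by_contra hcon
      simp only [mem_union, mem_ofPred_eq, not_or, not_and] at hcon
      obtain ⟨c1, c2⟩ := hcon
      refine hbad ⟨not_not.1 (c1 htT), fun z hz => ?_⟩
      exact hfar t (c2 htT) z hz (hyx.le.trans hz.1)
    refine (measure_mono hsub).trans ?_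
    refine (measure_union_le _ _).trans ?_
    refine (add_le_add m1 m2).trans ?_
    rw [hfin _ _ hC4.le zero_le_one]
    apply ENNReal.ofReal_le_ofReal
    have h5 : 0 < C7 + K + Real.exp (c * E) := by positivity
    have h6 : C4 + 1 ≤ C4 + 1 + C7 + K + Real.exp (c * E) := by linarith
    gcongr
  have hy1 : y0 ≤ 1 := hyx.trans hx1
  have hU : B / y0 ≤ L / 16 := by
    rw [div_le_iff₀ hy]
    have h5 : L / 16 * y0 = y0 * L / 16 := by ring
    rw [h5]
    linarith
  have hU1 : 1 ≤ B / y0 := by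
    rw [le_div_iff₀ hy]
    linarith
  have hU0 : 0 < B / y0 := by linarith
  have m3 : volume {t : ℝ | t ∈ Icc T (2 * T) ∧
      ∃ z ∈ Kt t y0 1 M, κ / 64 * L < ‖Dp (B / y0) z t‖} ≤
      ENNReal.ofReal (C7 * T * Real.exp (-(c * y0 * L))) := by
    rw [hLd]
    refine (H7 T hT7' y0 hy hy1).trans (ENNReal.ofReal_le_ofReal ?_)
    rw [← hLd]
    have h5 : Real.exp (-(c7 * y0 * L)) ≤ Real.exp (-(c * y0 * L)) := by
      apply Real.exp_le_exp.2
      have : c * y0 * L ≤ c7 * y0 * L := by gcongr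
      linarith
    gcongr
  have m4 : volume {t : ℝ | t ∈ Icc T (2 * T) ∧
      κ / 64 * L * (B / y0) / (C2 * M ^ 2) < QF (B / y0) y0 y0 t} ≤
      ENNReal.ofReal (K * T * Real.exp (-(c * y0 * L))) := by
    refine (H6 T hT6' (B / y0) y0 y0 (κ / 64 * L * (B / y0) / (C2 * M ^ 2)) hU0.le
      (by rw [← hLd]; exact hU) hy hy hy1 (by positivity)).trans (ENNReal.ofReal_le_ofReal ?_)
    rw [← hLd]
    have h5 : C6 * T * L * Real.exp (-(y0 * L / 64)) /
        (y0 * (κ / 64 * L * (B / y0) / (C2 * M ^ 2))) = K * T * Real.exp (-(y0 * L / 64)) := by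
      rw [hK]
      field_simp
    rw [h5]
    have h6 : Real.exp (-(y0 * L / 64)) ≤ Real.exp (-(c * y0 * L)) := by
      apply Real.exp_le_exp.2
      have h7 : c * (y0 * L) ≤ 1 / 128 * (y0 * L) := by gcongr
      have h8 : 0 < y0 * L := by positivity
      linarith
    gcongr
  have hsub : {t : ℝ | t ∈ Icc T (2 * T) ∧ ¬ Reg1 t y0 M κ L} ⊆
      (({t : ℝ | t ∈ Icc T (2 * T) ∧ ¬ CF t y0 M} ∪
        {t : ℝ | t ∈ Icc T (2 * T) ∧ ∃ z : ℂ, x1 ≤ z.re ∧ z.re ≤ 4 ∧
          |z.im - t| ≤ 4 * M ∧ κ / 4 * L < ‖P z - (L / 2 : ℝ)‖}) ∪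
        {t : ℝ | t ∈ Icc T (2 * T) ∧ ∃ z ∈ Kt t y0 1 M, κ / 64 * L < ‖Dp (B / y0) z t‖}) ∪
        {t : ℝ | t ∈ Icc T (2 * T) ∧
          κ / 64 * L * (B / y0) / (C2 * M ^ 2) < QF (B / y0) y0 y0 t} := by
    intro t ht
    obtain ⟨htT, hbad⟩ := ht
    by_contra hcon
    simp only [mem_union, mem_ofPred_eq, not_or, not_and] at hcon
    obtain ⟨⟨⟨c1, c2⟩, c3⟩, c4⟩ := hcon
    have d1 : CF t y0 M := not_not.1 (c1 htT)
    have d2 := c2 htT
    have d3 : ∀ z ∈ Kt t y0 1 M, ‖Dp (B / y0) z t‖ ≤ κ / 64 * L := by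
      intro z hz
      by_contra hlt
      exact c3 htT ⟨z, hz, not_le.1 hlt⟩
    have d4 := not_lt.1 (c4 htT)
    have d5 : ‖P (x1 + I * t) - (L / 2 : ℝ)‖ ≤ κ / 4 * L := by
      by_contra hlt
      push Not at hlt
      refine d2 ⟨x1 + I * t, ?_, ?_, ?_, hlt⟩
      · simp
      · simp only [add_re, ofReal_re, mul_re, I_re, I_im, ofReal_im, zero_mul, one_mul, sub_self,
          add_zero]
        linarith
      · simp only [add_im, ofReal_im, mul_im, I_re, I_im, ofReal_re, zero_mul, one_mul, zero_add,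
          sub_self, abs_zero]
        positivity
    refine hbad ⟨d1, fun z hz => ?_⟩
    rcases le_total x1 z.re with hx | hx
    · exact hfar t d2 z hz hx
    · have hlog : Real.log (2 + t) ≤ 2 * L := by
        have h5 : 2 + t ≤ T ^ 2 := by
          have := htT.2
          nlinarith
        have h6 := Real.log_le_log (by linarith [htT.1]) h5
        rw [Real.log_pow, ← hLd] at h6
        exact_mod_cast h6
      refine det (B := B) hM hκ hκ1 hC1 hC2 hC3 hC5 hx0 hx1 hxa hxb hB hB2 hL1 hlog hy hyx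
        ?_ ?_ ?_ ?_ ?_ ?_ d4 d3 d5 ⟨hz.1, hx, hz.2.2⟩
      · linarith
      · linarith
      · exact H1 t y0 x1 (by linarith [htT.1]) hy hx1 d1
      · exact H2 M t y0 (B / y0) hM hy hU1 d1
      · rw [hLd]
        exact fun u hu0 hu1 => H3 T hT3' t u htT.1 htT.2 hu0 hu1
      · exact fun x hx2 hx3 => H5 M t y0 x hM hy hx2 hx3 d1
  refine (measure_mono hsub).trans ?_
  refine (measure_union_le _ _).trans ?_
  refine (add_le_add (measure_union_le _ _) le_rfl).trans ?_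
  refine (add_le_add (add_le_add (measure_union_le _ _) le_rfl) le_rfl).trans ?_
  refine (add_le_add (add_le_add (add_le_add m1 m2) m3) m4).trans ?_
  rw [hfin _ _ hC4.le zero_le_one, hfin _ _ (by positivity) hC7.le, hfin _ _ (by positivity) hK0.le]
  apply ENNReal.ofReal_le_ofReal
  have h6 : C4 + 1 + C7 + K ≤ C4 + 1 + C7 + K + Real.exp (c * E) := by linarith
  gcongr

/-! ### the far part and the conclusion -/

/-- change of the interval -/
theorem Reg1.conv {t y0 M κ κ' L L' : ℝ} (h : Reg1 t y0 M κ' L') (hκ : 0 < κ)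
    (hκ' : κ' ≤ κ / 2) (hκ0 : 0 < κ') (hLL : |L - L'| ≤ 1) (hL : 1 + 1 / κ ≤ L) :
    Reg1 t y0 M κ L := by
  refine ⟨h.1, fun z hz => ?_⟩
  have h1 := h.2 z hz
  have h2 : P z - (L / 2 : ℝ) = (P z - (L' / 2 : ℝ)) + (((L' - L) / 2 : ℝ) : ℂ) := by
    push_cast
    ring
  rw [h2]
  refine (norm_add_le _ _).trans ?_
  rw [Complex.norm_real, Real.norm_eq_abs, abs_div, abs_of_pos (two_pos (α := ℝ)), abs_sub_comm]
  have h3 : L' ≤ L + 1 := by
    have := (abs_le.1 hLL).1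
    linarith
  have h0 : 0 < 1 / κ := by positivity
  have hL1 : 0 < L + 1 := by linarith
  have h4 : κ' * L' ≤ κ / 2 * (L + 1) := by
    calc κ' * L' ≤ κ' * (L + 1) := by gcongr
      _ ≤ κ / 2 * (L + 1) := by gcongr
  have h5 : κ + 1 ≤ κ * L := by
    calc κ + 1 = κ * (1 + 1 / κ) := by field_simp
      _ ≤ κ * L := by gcongr
  have h6 : κ / 2 * (L + 1) = κ * L / 2 + κ / 2 := by ring
  rw [h6] at h4
  linarith

/-- points which are far from the line -/
theorem far (M κ : ℝ) (hM : 1 ≤ M) (hκ : 0 < κ) : ∃ T0 : ℝ, 10 ≤ T0 ∧ ∀ T : ℝ, T0 ≤ T →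
    ∀ y0 : ℝ, 2 ≤ y0 → ∀ t ∈ Icc (T / 2) (4 * T), Reg1 t y0 M κ (Real.log T) := by
  obtain ⟨C, hC0, hC⟩ := Pool.Agent.H980.HP.P_near
  obtain ⟨D, hD0, hD⟩ := Pool.Agent.H862.VK.zld_bound
  have hA : 0 ≤ (C + D + 1) / κ := by positivity
  refine ⟨10 + 16 * M + Real.exp ((C + D + 1) / κ), by
    have := Real.exp_pos ((C + D + 1) / κ)
    linarith, fun T hT y0 hy t ht => ?_⟩
  have hexp := Real.exp_pos ((C + D + 1) / κ)
  have hT10 : 10 ≤ T := by linarith
  have hT0 : 0 < T := by linarith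
  have hTM : 16 * M ≤ T := by linarith
  have hL : (C + D + 1) / κ ≤ Real.log T := by
    rw [Real.le_log_iff_exp_le hT0]
    linarith
  have hL2 : C + D + 1 ≤ κ * Real.log T := by
    rw [div_le_iff₀ hκ] at hL
    linarith
  refine ⟨fun b hb => Or.inl ?_, fun z hz => ?_⟩
  · have := Pool.Agent.H115.HP.re_lt hb
    linarith
  · have hz2 : 2 ≤ z.re := hy.trans hz.1
    have hz4 := hz.2.1
    have him := abs_le.1 hz.2.2
    have hMz : M * z.re ≤ 4 * M := by
      have : M * z.re ≤ M * 4 := by gcongr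
      linarith
    have ht1 := ht.1
    have ht2 := ht.2
    have hre : (1 / 2 + z).re = 1 / 2 + z.re := Pool.Agent.H862.VK.half_re z
    have hne : riemannZeta (1 / 2 + z) ≠ 0 :=
      riemannZeta_ne_zero_of_one_le_re (by rw [hre]; linarith)
    have h1 := hC t z (by linarith) (by linarith) hz4 (by linarith [him.1]) (by linarith [him.2]) hne
    have h2 := hD (1 / 2 + z) (by rw [hre]; linarith)
    have h3 : P z - (Real.log T / 2 : ℝ) = (P z - (Real.log t / 2 : ℝ)) +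
        (((Real.log t - Real.log T) / 2 : ℝ) : ℂ) := by
      push_cast
      ring
    rw [h3]
    refine (norm_add_le _ _).trans ?_
    rw [Complex.norm_real, Real.norm_eq_abs, abs_div, abs_of_pos (two_pos (α := ℝ))]
    have ht0 : 0 < t := by linarith
    have h4 : |Real.log t - Real.log T| ≤ 2 := by
      rw [abs_le]
      have hl2 : Real.log 2 ≤ 1 := by
        have := Real.log_two_lt_d9
        linarith
      constructor
      · have h5 : Real.log (T / 2) ≤ Real.log t := Real.log_le_log (by linarith) ht1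
        rw [Real.log_div hT0.ne' two_ne_zero] at h5
        linarith
      · have h5 : Real.log t ≤ Real.log (4 * T) := Real.log_le_log ht0 ht2
        rw [Real.log_mul (by norm_num) hT0.ne'] at h5
        have h6 : Real.log 4 = 2 * Real.log 2 := by
          rw [show (4 : ℝ) = 2 ^ 2 by norm_num, Real.log_pow]
          norm_num
        linarith
    linarith

/-- **The regular points, with exponentially small exceptional sets.** -/
theorem regx (h1 : S_DEXP) (h2 : S_QF) (h3 : S_REP) (h4 : S_ANCP) : S_REGX := by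
  intro M κ hM hκ
  obtain ⟨κ', hκ'd⟩ : ∃ κ', κ' = min (κ / 2) 1 := ⟨_, rfl⟩
  have hκ0 : 0 < κ' := by
    rw [hκ'd]
    exact lt_min (by positivity) one_pos
  have hκ2 : κ' ≤ κ / 2 := by rw [hκ'd]; exact min_le_left _ _
  have hκ1 : κ' ≤ 1 := by rw [hκ'd]; exact min_le_right _ _
  obtain ⟨C, c, T0, hC, hc, hT0, H⟩ := core h1 h2 h3 h4 M κ' hM hκ0 hκ1
  obtain ⟨T1, hT1, H1⟩ := far M κ hM hκ
  have hexp := Real.exp_pos (1 + 1 / κ)
  have hc2 := Real.exp_pos (2 * c)
  refine ⟨6 * C * Real.exp (2 * c), c, 2 * T0 + T1 + Real.exp (1 + 1 / κ), by positivity, hc,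
    by linarith, fun T hT => ⟨fun y0 hy => ?_, H1 T (by linarith)⟩⟩
  have hT10 : 10 ≤ T := by linarith
  have hTp : 0 < T := by linarith
  rcases le_total y0 2 with hy2 | hy2
  swap
  · have he : {t : ℝ | t ∈ Icc (T / 2) (4 * T) ∧ ¬ Reg1 t y0 M κ (Real.log T)} = ∅ := by
      rw [Set.eq_empty_iff_forall_notMem]
      intro t ht
      exact ht.2 (H1 T (by linarith) y0 hy2 t ht.1)
    rw [he, measure_empty]
    exact zero_le
  have hL : 1 + 1 / κ ≤ Real.log T := by
    rw [Real.le_log_iff_exp_le hTp]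
    linarith
  have hl2 : Real.log 2 ≤ 1 := by
    have := Real.log_two_lt_d9
    linarith
  have hl0 : 0 < Real.log 2 := Real.log_pos (by norm_num)
  have hT0p : 0 < T0 := by linarith
  -- one of the three intervals
  have hone : ∀ T' : ℝ, T / 2 ≤ T' → T' ≤ 2 * T →
      volume {t : ℝ | t ∈ Icc T' (2 * T') ∧ ¬ Reg1 t y0 M κ (Real.log T)} ≤
      ENNReal.ofReal (2 * C * Real.exp (2 * c) * T * Real.exp (-(c * y0 * Real.log T))) := by
    intro T' hT1' hT2'
    have hT'0 : 0 < T' := by linarith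
    have hla : Real.log T - Real.log 2 ≤ Real.log T' := by
      have h5 := Real.log_le_log (by linarith) hT1'
      rwa [Real.log_div hTp.ne' two_ne_zero] at h5
    have hlb : Real.log T' ≤ Real.log 2 + Real.log T := by
      have h5 := Real.log_le_log hT'0 hT2'
      rwa [Real.log_mul two_ne_zero hTp.ne'] at h5
    have hsub : {t : ℝ | t ∈ Icc T' (2 * T') ∧ ¬ Reg1 t y0 M κ (Real.log T)} ⊆
        {t : ℝ | t ∈ Icc T' (2 * T') ∧ ¬ Reg1 t y0 M κ' (Real.log T')} := by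
      rintro t ⟨ht, hbad⟩
      refine ⟨ht, fun h5 => hbad ?_⟩
      refine Reg1.conv h5 hκ hκ2 hκ0 ?_ hL
      rw [abs_le]
      constructor <;> linarith
    refine (measure_mono hsub).trans ((H T' (by linarith) y0 hy hy2).trans
      (ENNReal.ofReal_le_ofReal ?_))
    have h5 : Real.exp (-(c * y0 * Real.log T')) ≤
        Real.exp (2 * c) * Real.exp (-(c * y0 * Real.log T)) := by
      rw [← Real.exp_add]
      apply Real.exp_le_exp.2
      have h6 : c * y0 * (Real.log T - 1) ≤ c * y0 * Real.log T' := by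
        have : Real.log T - 1 ≤ Real.log T' := by linarith
        gcongr
      have h7 : c * y0 ≤ c * 2 := by gcongr
      linarith
    calc C * T' * Real.exp (-(c * y0 * Real.log T')) ≤
          C * (2 * T) * (Real.exp (2 * c) * Real.exp (-(c * y0 * Real.log T))) := by gcongr
      _ = _ := by ring
  have hcover : {t : ℝ | t ∈ Icc (T / 2) (4 * T) ∧ ¬ Reg1 t y0 M κ (Real.log T)} ⊆
      ({t : ℝ | t ∈ Icc (T / 2) (2 * (T / 2)) ∧ ¬ Reg1 t y0 M κ (Real.log T)} ∪
        {t : ℝ | t ∈ Icc T (2 * T) ∧ ¬ Reg1 t y0 M κ (Real.log T)}) ∪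
        {t : ℝ | t ∈ Icc (2 * T) (2 * (2 * T)) ∧ ¬ Reg1 t y0 M κ (Real.log T)} := by
    rintro t ⟨ht, hbad⟩
    rcases le_total t T with h5 | h5
    · exact Or.inl (Or.inl ⟨⟨ht.1, by linarith⟩, hbad⟩)
    · rcases le_total t (2 * T) with h6 | h6
      · exact Or.inl (Or.inr ⟨⟨h5, h6⟩, hbad⟩)
      · exact Or.inr ⟨⟨h6, by linarith [ht.2]⟩, hbad⟩
  refine (measure_mono hcover).trans ?_
  refine (measure_union_le _ _).trans ?_
  refine (add_le_add (measure_union_le _ _) le_rfl).trans ?_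
  refine (add_le_add (add_le_add (hone (T / 2) le_rfl (by linarith))
    (hone T (by linarith) (by linarith))) (hone (2 * T) (by linarith) le_rfl)).trans ?_
  rw [← ENNReal.ofReal_add (by positivity) (by positivity),
    ← ENNReal.ofReal_add (by positivity) (by positivity)]
  apply ENNReal.ofReal_le_ofReal
  apply le_of_eq
  ring

end Pool.Agent.H996.HP
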